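import Pool.Agent.H465.CG.Stm

/-!
Project CG (helper465), GEO: coordinates on the ring of integers of an imaginary quadratic field.
-/

set_option autoImplicit false

open NumberField

namespace Pool.Agent.H591.CG

open Pool.Agent.H465.CG (SGeo NN)

/-- the discriminant is negative -/
theorem discr_neg (K : Type) [Field K] [NumberField K] [IsTotallyComplex K]
    (h2 : Module.finrank ℚ K = 2) : discr K < 0 := by
  have h1 := sign_discr K
  have h3 : InfinitePlace.nrComplexPlaces K = 1 := by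
    have h4 := InfinitePlace.card_add_two_mul_card_eq_rank K
    have h5 : InfinitePlace.nrRealPlaces K = 0 := IsTotallyComplex.nrRealPlaces_eq_zero K
    rw [h5, h2] at h4
    omega
  rw [h3, pow_one, Int.sign_eq_neg_one_iff_neg] at h1
  exact h1

theorem t_SGeo : SGeo := by
  intro K _ _ _ h2
  have hfin : Module.finrank ℤ (𝓞 K) = 2 := by rw [RingOfIntegers.rank, h2]
  let b : Module.Basis (Fin 2) ℤ (𝓞 K) := (Module.finBasis ℤ (𝓞 K)).reindex (finCongr hfin)
  have hD := discr_neg K h2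
  refine ⟨(Algebra.trace ℤ (𝓞 K)).toAddMonoidHom,
    { toFun := fun x => b.repr 1 0 * b.repr x 1 - b.repr 1 1 * b.repr x 0
      map_zero' := by simp
      map_add' := fun x y => by
        simp only [map_add, Finsupp.add_apply]
        ring }, ?_, fun x => ?_⟩
  · show b.repr 1 0 * b.repr 1 1 - b.repr 1 1 * b.repr 1 0 = 0
    ring
  -- the discriminant of `(1, x)`
  have key : Algebra.trace ℤ (𝓞 K) x ^ 2 - 4 * Algebra.norm ℤ x =
      (b.repr 1 0 * b.repr x 1 - b.repr 1 1 * b.repr x 0) ^ 2 * discr K := by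
    have k1 : Algebra.discr ℤ (![1, x] : Fin 2 → 𝓞 K) =
        (b.repr 1 0 * b.repr x 1 - b.repr 1 1 * b.repr x 0) ^ 2 * discr K := by
      have e1 := Algebra.discr_of_matrix_vecMul (A := ℤ) (b : Fin 2 → 𝓞 K) (b.toMatrix ![1, x])
      rw [Module.Basis.toMatrix_map_vecMul, NumberField.discr_eq_discr, Matrix.det_fin_two] at e1
      rw [e1]
      simp only [Module.Basis.toMatrix_apply, Matrix.cons_val_zero, Matrix.cons_val_one]
      ring
    rw [← k1, Algebra.discr_def, Matrix.det_fin_two]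
    simp only [Algebra.traceMatrix_apply, Algebra.traceForm_apply, Matrix.cons_val_zero,
      Matrix.cons_val_one, mul_one, one_mul]
    have t1 : Algebra.trace ℤ (𝓞 K) 1 = 2 := by
      have := Algebra.trace_algebraMap (S := 𝓞 K) (1 : ℤ)
      rw [map_one, hfin] at this
      rw [this]
      rfl
    have t2 : Algebra.trace ℤ (𝓞 K) (x * x) = Algebra.trace ℤ (𝓞 K) x ^ 2 -
        2 * Algebra.norm ℤ x := by
      rw [Algebra.trace_eq_matrix_trace b, Algebra.trace_eq_matrix_trace b,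
        Algebra.norm_eq_matrix_det b, map_mul, Matrix.trace_fin_two, Matrix.trace_fin_two,
        Matrix.det_fin_two, Matrix.mul_apply, Matrix.mul_apply, Fin.sum_univ_two, Fin.sum_univ_two]
      ring
    rw [t1, t2]
    ring
  have hN : 0 ≤ Algebra.norm ℤ x := by
    have h3 : (b.repr 1 0 * b.repr x 1 - b.repr 1 1 * b.repr x 0) ^ 2 * discr K ≤ 0 :=
      mul_nonpos_of_nonneg_of_nonpos (sq_nonneg _) hD.le
    nlinarith [sq_nonneg (Algebra.trace ℤ (𝓞 K) x)]
  have hNN : NN (Ideal.span {x}) = ((Algebra.norm ℤ x : ℤ) : ℝ) := by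
    unfold NN
    rw [Ideal.absNorm_span_singleton]
    have h3 : (((Algebra.norm ℤ x).natAbs : ℤ)) = Algebra.norm ℤ x := Int.natAbs_of_nonneg hN
    calc (((Algebra.norm ℤ x).natAbs : ℕ) : ℝ) = ((((Algebra.norm ℤ x).natAbs : ℕ) : ℤ) : ℝ) := by
          rw [Int.cast_natCast]
      _ = _ := by rw [h3]
  have hDr : |(discr K : ℝ)| = -(discr K : ℝ) := abs_of_neg (by exact_mod_cast hD)
  rw [hNN, hDr]
  show 4 * ((Algebra.norm ℤ x : ℤ) : ℝ) = ((Algebra.trace ℤ (𝓞 K) x : ℤ) : ℝ) ^ 2 +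
    ((b.repr 1 0 * b.repr x 1 - b.repr 1 1 * b.repr x 0 : ℤ) : ℝ) ^ 2 * -(discr K : ℝ)
  have k2 : (((Algebra.trace ℤ (𝓞 K) x ^ 2 - 4 * Algebra.norm ℤ x : ℤ)) : ℝ) =
      (((b.repr 1 0 * b.repr x 1 - b.repr 1 1 * b.repr x 0) ^ 2 * discr K : ℤ) : ℝ) := by
    rw [key]
  push_cast at k2 ⊢
  linear_combination -k2

end Pool.Agent.H591.CG
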