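import Mathlib
import Pool.Agent.H85.AK.Stmt2

/-!
Valuation rings and non-integral elements; integral elements in positive characteristic are roots
of unity (helper85, `S_valex` and `S_charp`).
-/

set_option autoImplicit false

namespace Pool.Agent.H591.AKVal

theorem integral_closure_empty (F : Type) [Field F] :
    Algebra.IsIntegral ℤ (Subring.closure (∅ : Set F)) := by
  constructor
  rintro ⟨x, hx⟩
  have hx' : x ∈ (⊥ : Subring F) := by
    rw [← Subring.closure_empty]
    exact hx
  rw [Subring.mem_bot] at hx'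
  obtain ⟨n, hn⟩ := hx'
  have h1 : (⟨x, hx⟩ : Subring.closure (∅ : Set F)) =
      algebraMap ℤ (Subring.closure (∅ : Set F)) n := by
    apply Subtype.ext
    simp [← hn]
  rw [h1]
  exact isIntegral_algebraMap

theorem s_valex : Pool.Agent.H85.AK.Stmt2.S_valex := by
  intro F _ r hr
  have hint := integral_closure_empty F
  have h1 : r ∉ (integralClosure (Subring.closure (∅ : Set F)) F).toSubring := by
    intro h
    apply hr
    have h2 : IsIntegral (Subring.closure (∅ : Set F)) r := h
    exact isIntegral_trans r h2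
  rw [← iInf_valuationSubring_superset] at h1
  rw [Subring.mem_iInf] at h1
  push Not at h1
  obtain ⟨V, hV⟩ := h1
  refine ⟨V.1.ValueGroup, inferInstance, V.1.valuation, ?_⟩
  rw [← not_le, ValuationSubring.valuation_le_one_iff]
  exact hV

theorem s_charp : Pool.Agent.H85.AK.Stmt2.S_charp := by
  intro F _ p hp _ r hr0 hr
  let _ : Algebra (ZMod p) F := ZMod.algebra F p
  have h1 : IsIntegral (ZMod p) r := hr.tower_top
  have h2 : Module.Finite (ZMod p) (Algebra.adjoin (ZMod p) {r}) :=
    Module.Finite.iff_fg.2 h1.fg_adjoin_singleton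
  have h3 : Finite (Algebra.adjoin (ZMod p) {r}) := Module.finite_of_finite (ZMod p)
  obtain ⟨m, n, hmn, h4⟩ := Finite.exists_ne_map_eq_of_infinite
    (fun n : ℕ => (⟨r, Algebra.self_mem_adjoin_singleton (ZMod p) r⟩ :
      Algebra.adjoin (ZMod p) {r}) ^ n)
  have h5 : r ^ m = r ^ n := by
    have := congrArg Subtype.val h4
    simpa using this
  rcases lt_or_gt_of_ne hmn with h | h
  · refine ⟨n - m, by omega, ?_⟩
    have h6 : r ^ m * r ^ (n - m) = r ^ m * 1 := by
      rw [← pow_add, mul_one, h5]
      congr 1
      omega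
    exact mul_left_cancel₀ (pow_ne_zero _ hr0) h6
  · refine ⟨m - n, by omega, ?_⟩
    have h6 : r ^ n * r ^ (m - n) = r ^ n * 1 := by
      rw [← pow_add, mul_one, ← h5]
      congr 1
      omega
    exact mul_left_cancel₀ (pow_ne_zero _ hr0) h6

end Pool.Agent.H591.AKVal
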