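import Mathlib
import Pool.Agent.H576.CT.Stm

/-!
# Covering a block in stages, and moving between the centres (project CT)
-/

set_option autoImplicit false

namespace Pool.Agent.H591

open Finset Pool.Agent.TH112.BW Pool.Agent.H576.CT

theorem ct_tot_nonneg {V : Type} [Fintype V] [DecidableEq V] (G : SimpleGraph V)
    [DecidableRel G.Adj] (w : V → ℝ) (hw : ∀ x, 0 < w x) : 0 ≤ tot G w :=
  Finset.sum_nonneg fun x _ => mul_nonneg (hw x).le (dg_nonneg G w hw x)

theorem ct_move : S_MOVE := by
  intro V _ _ G _ ε h0 h1 hN hG w hw o u R hR hres k S ho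
  obtain ⟨h', h0', hpos', hlap', hflow', -⟩ := exists_hit G hG w hw.1 u
  have htot := ct_tot_nonneg G w hw.1
  have e1 := J_hit h0 h1 hN w hw u h' h0' hpos' hlap' S k o S ho (Finset.Subset.refl _)
  have e2 : J G ε hN (Dt u S) k o S ≤ J G ε hN (Dt u (insert u S)) k o S :=
    J_anti h0 h1 hN _ _ (fun x S hx => ⟨hx.1, (Finset.subset_insert _ _).trans hx.2⟩) k o S
  have e3 := (hres h' (tot G w) htot hflow').2
  rw [h0'] at e3
  linarith

/-- nothing to do at a target state -/
theorem ct_done {V : Type} [Fintype V] [DecidableEq V] (G : SimpleGraph V) [DecidableRel G.Adj]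
    (ε : ℝ) (hN : ∀ x, (G.neighborFinset x).Nonempty) (D : V → Finset V → Prop) (x : V)
    (S : Finset V) (hD : D x S) (k : ℕ) : J G ε hN D k x S = 0 := by
  cases k with
  | zero => exact J_zero hN D x S
  | succ k => exact J_succ_pos hN D k x S hD

theorem ct_cover (h : S_DROP) : S_COVER := by
  intro V _ _ G _ ε h0 h1 hN hG o R hR B E N0 hE hB T hT hw k S ho
  have key : ∀ d s : ℕ, s + d = N0 + 1 → ∀ S : Finset V, o ∈ S → (B \ S).card * E ^ s ≤ N0 →
      J G ε hN (Dt o (S ∪ B)) k o S ≤ E * R * ∑ i ∈ Ico s (N0 + 1), T i := by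
    intro d
    induction d with
    | zero =>
      intro s hs S ho hc
      have hs' : s = N0 + 1 := by omega
      subst hs'
      have hlt : N0 < E ^ (N0 + 1) :=
        (Nat.lt_succ_self N0).trans (Nat.lt_pow_self (by omega))
      have hz : (B \ S).card = 0 := by
        by_contra hne
        have : 1 * E ^ (N0 + 1) ≤ (B \ S).card * E ^ (N0 + 1) :=
          Nat.mul_le_mul_right _ (Nat.one_le_iff_ne_zero.2 hne)
        omega
      have hsub : B ⊆ S := by
        rw [Finset.card_eq_zero, Finset.sdiff_eq_empty_iff_subset] at hz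
        exact hz
      rw [ct_done G ε hN _ _ _ ⟨rfl, Finset.union_subset (Finset.Subset.refl _) hsub⟩]
      simp
    | succ d ih =>
      intro s hs S ho hc
      have hE0 : 0 < E := by omega
      have hsum : ∀ s : ℕ, 0 ≤ (E : ℝ) * R * ∑ i ∈ Ico s (N0 + 1), T i := fun s =>
        mul_nonneg (mul_nonneg (Nat.cast_nonneg _) hR) (Finset.sum_nonneg fun i _ => hT i)
      by_cases hemp : (B \ S) = ∅
      · rw [Finset.sdiff_eq_empty_iff_subset] at hemp
        rw [ct_done G ε hN _ _ _ ⟨rfl, Finset.union_subset (Finset.Subset.refl _) hemp⟩]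
        exact hsum s
      · obtain ⟨w, hadm, hres, htot⟩ := hw s (B \ S) Finset.sdiff_subset
          (fun hcon => (Finset.mem_sdiff.1 hcon).2 ho) (Finset.nonempty_iff_ne_empty.2 hemp) hc
        set K0 := N0 / E ^ (s + 1) + 1 with hK0
        have hK1 : 1 ≤ K0 := Nat.le_add_left 1 _
        have hdrop := h V G ε h0 h1 hN hG w hadm o R hR B S ho hres K0 hK1 k
        have hcard : (B \ S).card ≤ E * K0 := by
          have h2 : N0 < E ^ (s + 1) * K0 := by
            have := Nat.lt_mul_div_succ N0 (show 0 < E ^ (s + 1) by positivity)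
            exact this
          have h3 : (B \ S).card * E ^ s < (E * K0) * E ^ s := by
            calc (B \ S).card * E ^ s ≤ N0 := hc
              _ < E ^ (s + 1) * K0 := h2
              _ = (E * K0) * E ^ s := by ring
          exact (Nat.lt_of_mul_lt_mul_right h3).le
        have hd2 : tot G w * R * ((B \ S).card / K0) ≤ E * R * T s := by
          have hK0r : (0 : ℝ) < K0 := by exact_mod_cast hK1
          have h4 : ((B \ S).card : ℝ) / K0 ≤ E := by
            rw [div_le_iff₀ hK0r]
            exact_mod_cast hcard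
          have h5 := ct_tot_nonneg G w hadm.1
          calc tot G w * R * ((B \ S).card / K0) ≤ tot G w * R * E :=
                mul_le_mul_of_nonneg_left h4 (mul_nonneg h5 hR)
            _ ≤ T s * R * E := mul_le_mul_of_nonneg_right
                (mul_le_mul_of_nonneg_right htot hR) (Nat.cast_nonneg _)
            _ = E * R * T s := by ring
        have hcomp := J_comp h0 h1 hN (Dt o (S ∪ B))
          (fun x S' => x = o ∧ S ⊆ S' ∧ (B \ S').card < K0) k
          (E * R * ∑ i ∈ Ico (s + 1) (N0 + 1), T i) (hsum (s + 1))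
          (by
            rintro x S' ⟨rfl, hSS, hlt⟩ hx
            have h6 : (B \ S').card * E ^ (s + 1) ≤ N0 :=
              (Nat.mul_le_mul_right _ (Nat.lt_succ_iff.1 hlt)).trans
                (Nat.div_mul_le_self _ _)
            have h7 := ih (s + 1) (by omega) S' hx h6
            refine le_trans ?_ h7
            refine J_anti h0 h1 hN _ _ ?_ k x S'
            rintro y T' ⟨rfl, hT'⟩
            exact ⟨rfl, (Finset.union_subset_union_left hSS).trans hT'⟩) o S ho
        have hIco : ∑ i ∈ Ico s (N0 + 1), T i = T s + ∑ i ∈ Ico (s + 1) (N0 + 1), T i :=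
          Finset.sum_eq_sum_Ico_succ_bot (by omega) _
        rw [hIco, mul_add]
        linarith
  have := key (N0 + 1) 0 (by omega) S ho (by
    rw [pow_zero, mul_one]
    exact (Finset.card_le_card Finset.sdiff_subset).trans hB)
  rw [Finset.range_eq_Ico]
  exact this

end Pool.Agent.H591
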