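import Mathlib
import Pool.Agent.H979.GW.StmA

/-!
# Project GW (helper979), task KEY: exponential decay in `L²` of the sums over the generations
-/

set_option autoImplicit false

open MeasureTheory ProbabilityTheory Filter Topology Set
open scoped ENNReal NNReal

namespace Pool.Agent.H591

open Pool.Agent.H979.GW

/-- **KEY** -/
theorem gw_key {Q : Type} [Fintype Q] [DecidableEq Q] (q : Q → Measure (Q → ℕ))
    [∀ a, IsProbabilityMeasure (q a)] {ρ : ℝ} {e m : Q → ℝ} {C r : ℝ} (hy : Hyp q ρ e m C r)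
    (h1 : S_M1 q) (h2 : S_M2 q) : S_KEY q ρ m := by
  intro f hf hm
  have hpf := hy.pf
  have hρ := hy.rho
  have hρ0 : 0 < ρ := by linarith
  have hρi : 0 < ρ⁻¹ := inv_pos.2 hρ0
  have hρi1 : ρ⁻¹ < 1 := inv_lt_one_of_one_lt₀ hρ
  -- the iterates are in `L²`
  have hL : ∀ (j : ℕ) (a : Q), MemLp (TT^[j] f a) 2 (law q a) := by
    intro j
    induction j with
    | zero => exact hf
    | succ j ih =>
      intro a
      rw [Function.iterate_succ_apply']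
      exact (h2 _ ih a).1
  have hI : ∀ (j : ℕ) (a : Q), Integrable (TT^[j] f a) (law q a) := fun j a =>
    (hL j a).integrable one_le_two
  have hA0 : ∀ a b, 0 ≤ mA q a b := fun a b => integral_nonneg fun x => Nat.cast_nonneg _
  -- first moments
  obtain ⟨ψ, hψ⟩ : ∃ ψ : ℕ → Q → ℝ, ∀ j b, ψ j b = ∫ ω, TT^[j] f b ω ∂(law q b) :=
    ⟨_, fun _ _ => rfl⟩
  have hψ1 : ∀ j, ψ (j + 1) = (mA q).mulVec (ψ j) := by
    intro j
    funext a
    rw [hψ, Function.iterate_succ_apply', (h1.2 _ (hI j) a).2]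
    simp only [Matrix.mulVec, dotProduct, hψ]
  have hψ2 : ∀ j, ψ j = ((mA q) ^ j).mulVec (ψ 0) := by
    intro j
    induction j with
    | zero => rw [pow_zero, Matrix.one_mulVec]
    | succ j ih => rw [hψ1, ih, Matrix.mulVec_mulVec, pow_succ']
  obtain ⟨M, hM⟩ : ∃ M : ℝ, ∀ b, |ψ 0 b| ≤ M :=
    ⟨∑ b, |ψ 0 b|, fun b => Finset.single_le_sum (fun b _ => abs_nonneg (ψ 0 b)) (Finset.mem_univ b)⟩
  have hm0 : ∑ b, m b * ψ 0 b = 0 := by
    simp only [hψ]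
    exact hm
  have hψ3 : ∀ j a, |(ρ⁻¹) ^ j * ψ j a| ≤ C * M * r ^ j := by
    intro j a
    have h := hpf.conv (ψ 0) M hM j a
    rw [← hψ2, hm0, zero_mul, sub_zero] at h
    calc |(ρ⁻¹) ^ j * ψ j a| ≤ C * r ^ j * M := h
      _ = _ := by ring
  -- second moments
  obtain ⟨v, hv⟩ : ∃ v : ℕ → Q → ℝ, ∀ j a, v j a = ∫ ω, ((ρ⁻¹) ^ j * TT^[j] f a ω) ^ 2 ∂(law q a) :=
    ⟨_, fun _ _ => rfl⟩
  have hv1 : ∀ j a, v j a = ((ρ⁻¹) ^ j) ^ 2 * ∫ ω, TT^[j] f a ω ^ 2 ∂(law q a) := by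
    intro j a
    rw [hv, ← integral_const_mul]
    congr 1
    funext ω
    ring
  have hv0 : ∀ j a, 0 ≤ v j a := fun j a => by
    rw [hv]
    exact integral_nonneg fun ω => sq_nonneg _
  obtain ⟨S, hS⟩ : ∃ S : Q → ℝ, ∀ a, S a = ∑ b, ∫ x, (x b : ℝ) ^ 2 ∂(q a) := ⟨_, fun _ => rfl⟩
  have hS0 : ∀ a, 0 ≤ S a := fun a => by
    rw [hS]
    exact Finset.sum_nonneg fun b _ => integral_nonneg fun x => sq_nonneg _
  -- the quadratic term
  have hquad : ∀ (φ : Q → ℝ) (a : Q), ∫ x, (∑ b, (x b : ℝ) * φ b) ^ 2 ∂(q a) ≤ S a * ∑ b, φ b ^ 2 := by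
    intro φ a
    have e1 : S a * ∑ b, φ b ^ 2 = ∫ x, (∑ b, (x b : ℝ) ^ 2) * ∑ b, φ b ^ 2 ∂(q a) := by
      rw [integral_mul_const, integral_finsetSum _ (fun b _ => hy.mom a b), hS]
    rw [e1]
    apply integral_mono_of_nonneg
    · exact Eventually.of_forall fun x => sq_nonneg _
    · exact (integrable_finsetSum _ (fun b _ => hy.mom a b)).mul_const _
    · exact Eventually.of_forall fun x => Finset.sum_mul_sq_le_sq_mul_sq _ _ _
  have hstep : ∀ j a, v (j + 1) a ≤ ρ⁻¹ ^ 2 * ∑ b, mA q a b * v j b +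
      ρ⁻¹ ^ 2 * (S a * (Fintype.card Q * (C * M * r ^ j) ^ 2)) := by
    intro j a
    have e1 : ∫ ω, TT^[j + 1] f a ω ^ 2 ∂(law q a) ≤
        ∑ b, mA q a b * ∫ ω, TT^[j] f b ω ^ 2 ∂(law q b) + S a * ∑ b, ψ j b ^ 2 := by
      rw [Function.iterate_succ_apply', (h2 _ (hL j) a).2]
      refine add_le_add ?_ ?_
      · refine Finset.sum_le_sum fun b _ => mul_le_mul_of_nonneg_left ?_ (hA0 a b)
        have := sq_nonneg (∫ ω, TT^[j] f b ω ∂(law q b))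
        linarith
      · have := hquad (ψ j) a
        simp only [hψ] at this ⊢
        exact this
    have e2 : ((ρ⁻¹) ^ j) ^ 2 * ∑ b, ψ j b ^ 2 ≤ Fintype.card Q * (C * M * r ^ j) ^ 2 := by
      rw [Finset.mul_sum]
      refine (Finset.sum_le_sum (g := fun _ => (C * M * r ^ j) ^ 2) fun b _ => ?_).trans ?_
      · rw [← mul_pow, ← sq_abs]
        exact pow_le_pow_left₀ (abs_nonneg _) (hψ3 j b) 2
      · rw [Finset.sum_const, Finset.card_univ, nsmul_eq_mul]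
    have e3 : v (j + 1) a = ρ⁻¹ ^ 2 * (((ρ⁻¹) ^ j) ^ 2 * ∫ ω, TT^[j + 1] f a ω ^ 2 ∂(law q a)) := by
      rw [hv1, pow_succ]
      ring
    have e4 : ((ρ⁻¹) ^ j) ^ 2 * ∫ ω, TT^[j + 1] f a ω ^ 2 ∂(law q a) ≤
        ∑ b, mA q a b * v j b + S a * (Fintype.card Q * (C * M * r ^ j) ^ 2) := by
      calc ((ρ⁻¹) ^ j) ^ 2 * ∫ ω, TT^[j + 1] f a ω ^ 2 ∂(law q a)
          ≤ ((ρ⁻¹) ^ j) ^ 2 * (∑ b, mA q a b * ∫ ω, TT^[j] f b ω ^ 2 ∂(law q b) +
            S a * ∑ b, ψ j b ^ 2) := mul_le_mul_of_nonneg_left e1 (by positivity)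
        _ = ∑ b, mA q a b * v j b + S a * (((ρ⁻¹) ^ j) ^ 2 * ∑ b, ψ j b ^ 2) := by
            rw [mul_add, Finset.mul_sum]
            congr 1
            · refine Finset.sum_congr rfl fun b _ => ?_
              rw [hv1]
              ring
            · ring
        _ ≤ _ := by
            have := mul_le_mul_of_nonneg_left e2 (hS0 a)
            linarith
    rw [e3, ← mul_add]
    exact mul_le_mul_of_nonneg_left e4 (by positivity)
  -- the constants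
  obtain ⟨s, hs⟩ : ∃ s : ℝ, s = max ((1 + ρ⁻¹) / 2) r := ⟨_, rfl⟩
  have hs1 : s < 1 := by
    rw [hs]
    exact max_lt (by linarith) hpf.r_lt
  have hs2 : (1 + ρ⁻¹) / 2 ≤ s := by rw [hs]; exact le_max_left _ _
  have hs3 : r ≤ s := by rw [hs]; exact le_max_right _ _
  have hs0 : 0 < s := by linarith
  have hκ : 0 < s - ρ⁻¹ := by linarith
  have hr2 : ∀ j : ℕ, (r ^ j) ^ 2 ≤ s ^ j := by
    intro j
    have hrj : r ^ j ≤ s ^ j := pow_le_pow_left₀ hpf.r_nonneg hs3 j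
    have hrj1 : r ^ j ≤ 1 := pow_le_one₀ hpf.r_nonneg hpf.r_lt.le
    have hrj0 : 0 ≤ r ^ j := pow_nonneg hpf.r_nonneg j
    nlinarith
  obtain ⟨K₂, hK₂⟩ : ∃ K₂ : ℝ, K₂ = ∑ a, ρ⁻¹ ^ 2 * (S a * (Fintype.card Q * (C * M) ^ 2)) / e a :=
    ⟨_, rfl⟩
  have hterm : ∀ a, 0 ≤ ρ⁻¹ ^ 2 * (S a * (Fintype.card Q * (C * M) ^ 2)) / e a := fun a =>
    div_nonneg (mul_nonneg (sq_nonneg _) (mul_nonneg (hS0 a) (by positivity))) (hpf.e_pos a).le
  have hK₂0 : 0 ≤ K₂ := by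
    rw [hK₂]
    exact Finset.sum_nonneg fun a _ => hterm a
  have hK₂a : ∀ a, ρ⁻¹ ^ 2 * (S a * (Fintype.card Q * (C * M) ^ 2)) ≤ K₂ * e a := by
    intro a
    rw [← div_le_iff₀ (hpf.e_pos a), hK₂]
    exact Finset.single_le_sum (fun b _ => hterm b) (Finset.mem_univ a)
  obtain ⟨K, hK⟩ : ∃ K : ℝ, K = K₂ / (s - ρ⁻¹) + ∑ a, v 0 a / e a := ⟨_, rfl⟩
  have hv00 : ∀ a, 0 ≤ v 0 a / e a := fun a => div_nonneg (hv0 0 a) (hpf.e_pos a).le
  have hsum0 : 0 ≤ ∑ a, v 0 a / e a := Finset.sum_nonneg fun a _ => hv00 a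
  have hK0 : 0 ≤ K := by
    rw [hK]
    exact add_nonneg (div_nonneg hK₂0 hκ.le) hsum0
  have hKκ : K₂ ≤ K * (s - ρ⁻¹) := by
    rw [← div_le_iff₀ hκ, hK]
    linarith
  have hKv : ∀ a, v 0 a ≤ K * e a := by
    intro a
    rw [← div_le_iff₀ (hpf.e_pos a), hK]
    have h3 : v 0 a / e a ≤ ∑ a, v 0 a / e a :=
      Finset.single_le_sum (fun b _ => hv00 b) (Finset.mem_univ a)
    have h4 := div_nonneg hK₂0 hκ.le
    linarith
  have hmain : ∀ j a, v j a ≤ K * s ^ j * e a := by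
    intro j
    induction j with
    | zero =>
      intro a
      rw [pow_zero, mul_one]
      exact hKv a
    | succ j ih =>
      intro a
      have e1 : ∑ b, mA q a b * v j b ≤ K * s ^ j * (ρ * e a) := by
        rw [← hpf.right a, Finset.mul_sum]
        refine Finset.sum_le_sum fun b _ => ?_
        calc mA q a b * v j b ≤ mA q a b * (K * s ^ j * e b) :=
              mul_le_mul_of_nonneg_left (ih b) (hA0 a b)
          _ = _ := by ring
      have e2 : ρ⁻¹ ^ 2 * (S a * (Fintype.card Q * (C * M * r ^ j) ^ 2)) ≤ K₂ * e a * s ^ j := by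
        calc ρ⁻¹ ^ 2 * (S a * (Fintype.card Q * (C * M * r ^ j) ^ 2)) =
            ρ⁻¹ ^ 2 * (S a * (Fintype.card Q * (C * M) ^ 2)) * (r ^ j) ^ 2 := by ring
          _ ≤ K₂ * e a * (r ^ j) ^ 2 := mul_le_mul_of_nonneg_right (hK₂a a) (sq_nonneg _)
          _ ≤ _ := mul_le_mul_of_nonneg_left (hr2 j) (mul_nonneg hK₂0 (hpf.e_pos a).le)
      have e3 : ρ⁻¹ ^ 2 * ∑ b, mA q a b * v j b ≤ ρ⁻¹ * (K * s ^ j * e a) := by
        calc ρ⁻¹ ^ 2 * ∑ b, mA q a b * v j b ≤ ρ⁻¹ ^ 2 * (K * s ^ j * (ρ * e a)) :=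
              mul_le_mul_of_nonneg_left e1 (sq_nonneg _)
          _ = ρ⁻¹ * (ρ⁻¹ * ρ) * (K * s ^ j * e a) := by ring
          _ = _ := by rw [inv_mul_cancel₀ hρ0.ne', mul_one]
      have hes : 0 ≤ s ^ j * e a := mul_nonneg (pow_nonneg hs0.le j) (hpf.e_pos a).le
      have e4 : K₂ * (s ^ j * e a) ≤ K * (s - ρ⁻¹) * (s ^ j * e a) :=
        mul_le_mul_of_nonneg_right hKκ hes
      calc v (j + 1) a ≤ _ := hstep j a
        _ ≤ ρ⁻¹ * (K * s ^ j * e a) + K₂ * e a * s ^ j := add_le_add e3 e2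
        _ ≤ K * s ^ (j + 1) * e a := by
            rw [pow_succ]
            linarith
  refine ⟨K * ∑ b, e b, s, mul_nonneg hK0 (Finset.sum_nonneg fun b _ => (hpf.e_pos b).le), hs0.le, hs1,
    fun j a => ⟨hL j a, ?_⟩⟩
  rw [← hv]
  have h5 : e a ≤ ∑ b, e b := Finset.single_le_sum (fun b _ => (hpf.e_pos b).le) (Finset.mem_univ a)
  calc v j a ≤ K * s ^ j * e a := hmain j a
    _ ≤ K * s ^ j * ∑ b, e b := mul_le_mul_of_nonneg_left h5 (mul_nonneg hK0 (pow_nonneg hs0.le j))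
    _ = _ := by ring

end Pool.Agent.H591
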