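import Pool.Agent.H812.Gi.Spec
import Pool.Graph.R_seed8.W811.Stu.Grow

/-!
# Part G_UNB: vertical curves and starting lines are transversal to the leaves
-/

set_option autoImplicit false

open Real Filter Topology Set
open scoped ContDiff

namespace Pool.Agent.H591.GiUnb

open Pool.Agent.W811.Stu Pool.Agent.H812.Tm Pool.Agent.H812.Gi

/-- the level functions along the inverse image of a curve -/
lemma orb_borb_add (d : ℕ → ℕ) (n m : ℕ) (p : P3) :
    orb d (borb d n p) (n + m) = orb (shd d n) p m := by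
  rw [orb_add, orb_borb]
  rfl

/-- arbitrarily high levels at which the level function is bounded by one -/
lemma exists_level {d : ℕ → ℕ} {p : P3} (h : Alive d p) {c0 : ℝ} (hc0 : 0 < c0) (C : ℝ) :
    ∃ M, 2 ≤ M ∧ |(orb d p M).y| ≤ 1 ∧ C < c0 * 2 ^ (M / 2) := by
  obtain ⟨k, hk⟩ := pow_unbounded_of_one_lt (C / c0) (one_lt_two (α := ℝ))
  have hk' : C < c0 * 2 ^ k := by
    rw [div_lt_iff₀ hc0] at hk
    linarith
  have hmono : ∀ M, 2 * k ≤ M → C < c0 * 2 ^ (M / 2) := by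
    intro M hM
    have h1 : (2 : ℝ) ^ k ≤ 2 ^ (M / 2) := by
      apply pow_le_pow_right₀ (by norm_num)
      omega
    calc C < c0 * 2 ^ k := hk'
      _ ≤ c0 * 2 ^ (M / 2) := by gcongr
  rcases h (2 * k + 2) with h1 | h1
  · exact ⟨2 * k + 2, by omega, h1, hmono _ (by omega)⟩
  · exact ⟨2 * k + 2 + 1, by omega, h1, hmono _ (by omega)⟩

/-- the derivative in the vertical direction -/
lemma hasDerivAt_dt {f : ℝ × ℝ → ℝ} (hf : ContDiffOn ℝ ∞ f U) {v : ℝ × ℝ} (hv : v ∈ U) :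
    HasDerivAt (fun t => f (v.1, t)) (dt f v) v.2 := by
  have h1 : DifferentiableAt ℝ f v :=
    (hf.contDiffAt (isOpen_U.mem_nhds hv)).differentiableAt (by simp)
  have h2 : HasDerivAt (fun t : ℝ => (v.1, t)) ((0 : ℝ), (1 : ℝ)) v.2 :=
    (hasDerivAt_const v.2 v.1).prodMk (hasDerivAt_id v.2)
  have h3 : HasFDerivAt f (fderiv ℝ f v) ((fun t : ℝ => (v.1, t)) v.2) := h1.hasFDerivAt
  exact h3.comp_hasDerivAt v.2 h2

/-- **G_UNB**. -/
theorem tGUnb (hLow : SLow) (hD : SDt) : GUnb := by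
  intro δ d hδ hd
  have h1cc := one_lt_cc hδ
  refine ⟨?_, ?_⟩
  · rintro n v ⟨hv, hal⟩ C
    obtain ⟨c0, hc0, hlow⟩ := hLow δ 1 hδ zero_le_one h1cc
    obtain ⟨M, hM2, hM1, hMC⟩ := exists_level hal hc0 C
    refine ⟨n + M, ?_⟩
    have he : (fun s => (orb d (vc δ d n v s) (n + M)).y)
        = fun t => Yf δ (shd d n) M (v.1, t) := by
      funext t
      unfold vc Yf
      rw [orb_borb_add]
    have hder := hasDerivAt_dt (hD δ (shd d n) M).1 hv
    rw [he, hder.deriv]
    exact lt_of_lt_of_le hMC (hlow (shd d n) (fun k => hd _) M hM2 v hv hM1)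
  · intro n E hal C
    obtain ⟨c0, hc0, hlow⟩ := tLB δ 1 hδ zero_le_one h1cc
    have h2δ : (2 * δ) ≠ 0 := mul_ne_zero two_ne_zero hδ
    have habs : 0 < |2 * δ| := abs_pos.2 h2δ
    obtain ⟨M, hM2, hM1, hMC⟩ := exists_level hal hc0 (C * |2 * δ|)
    refine ⟨n + M, ?_⟩
    have he : (fun s => (orb d (borb d n (lin (2 * δ) s)) (n + M)).y)
        = fun s => (orb (shd d n) (lin (2 * δ) s) M).y := by
      funext t
      rw [orb_borb_add]
    have hder := hasDeriv_level h2δ (shd d n) M E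
    have hon : OnS δ (lin (2 * δ) E) := by
      have := onS_lin (2 * δ) E
      rwa [mul_div_cancel_left₀ δ two_ne_zero] at this
    have hz : |(lin (2 * δ) E).z| ≤ 1 := by simp [lin]
    have hl := hlow (shd d n) (fun k => hd _) M hM2 _ hon hz hM1
    rw [he, hder.deriv, abs_div, abs_neg, lt_div_iff₀ habs]
    exact lt_of_lt_of_le hMC hl

end Pool.Agent.H591.GiUnb
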