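import Mathlib
import Pool.Agent.H770.SN.Stm

set_option autoImplicit false

/-!
# Multiplicative Prekopa-Leindler inequality in dimension `n` (task SN-8, helper591)
-/

namespace Pool.Agent.H591.SN8

open MeasureTheory Set Function Pool.Agent.H770.SN
open scoped ENNReal

theorem sqrt_update {n : ℕ} (x y : Fin n → ℝ) (i : Fin n) (a b : ℝ) :
    (fun j => Real.sqrt (update x i a j * update y i b j)) =
      update (fun j => Real.sqrt (x j * y j)) i (Real.sqrt (a * b)) := by
  funext v
  by_cases hv : v = i
  · rw [hv, update_self, update_self, update_self]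
  · rw [update_of_ne hv, update_of_ne hv, update_of_ne hv]

theorem marg_even {n : ℕ} (F : (Fin n → ℝ) → ℝ≥0∞) (hF : ∀ i x, F (Rf i x) = F x)
    (s : Finset (Fin n)) (i : Fin n) (hi : i ∉ s) (x : Fin n → ℝ) (a : ℝ) :
    lmarginal (fun _ => (volume : Measure ℝ)) s F (update x i (-a)) =
      lmarginal (fun _ => (volume : Measure ℝ)) s F (update x i a) := by
  unfold lmarginal
  refine lintegral_congr fun y => ?_
  rw [← hF i (updateFinset (update x i a) s y)]
  congr 1
  funext j
  unfold Rf
  by_cases hj : j = i
  · subst hj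
    rw [update_self]
    unfold updateFinset
    rw [dif_neg hi, dif_neg hi, update_self, update_self]
  · rw [update_of_ne hj]
    unfold updateFinset
    by_cases hjs : j ∈ s
    · rw [dif_pos hjs, dif_pos hjs]
    · rw [dif_neg hjs, dif_neg hjs, update_of_ne hj, update_of_ne hj]

theorem marg {n : ℕ} (h1 : S_M1) (F G H : (Fin n → ℝ) → ℝ≥0∞) (hF : Measurable F)
    (hG : Measurable G) (hH : Measurable H) (eF : ∀ i x, F (Rf i x) = F x)
    (eG : ∀ i x, G (Rf i x) = G x) (eH : ∀ i x, H (Rf i x) = H x)
    (hyp : ∀ x y : Fin n → ℝ, (∀ i, 0 < x i) → (∀ i, 0 < y i) →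
      F x * G y ≤ H (fun i => Real.sqrt (x i * y i)) ^ 2) (s : Finset (Fin n)) :
    ∀ x y : Fin n → ℝ, (∀ i, i ∉ s → 0 < x i) → (∀ i, i ∉ s → 0 < y i) →
      lmarginal (fun _ => (volume : Measure ℝ)) s F x *
        lmarginal (fun _ => (volume : Measure ℝ)) s G y ≤
      lmarginal (fun _ => (volume : Measure ℝ)) s H (fun i => Real.sqrt (x i * y i)) ^ 2 := by
  induction s using Finset.induction_on with
  | empty =>
    intro x y hx hy
    rw [lmarginal_empty, lmarginal_empty, lmarginal_empty]
    exact hyp x y (fun i => hx i (Finset.notMem_empty i)) (fun i => hy i (Finset.notMem_empty i))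
  | insert i s hi ih =>
    intro x y hx hy
    rw [lmarginal_insert F hF hi, lmarginal_insert G hG hi, lmarginal_insert H hH hi]
    refine h1 _ _ _ ((hF.lmarginal _).comp (measurable_update x))
      ((hG.lmarginal _).comp (measurable_update y))
      ((hH.lmarginal _).comp (measurable_update _)) (fun t => marg_even F eF s i hi x t)
      (fun t => marg_even G eG s i hi y t) (fun t => marg_even H eH s i hi _ t) ?_
    intro a b ha hb
    have h2 := ih (update x i a) (update y i b) (by
      intro j hj
      by_cases hji : j = i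
      · rw [hji, update_self]
        exact ha
      · rw [update_of_ne hji]
        refine hx j ?_
        rw [Finset.mem_insert]
        exact fun h => h.elim hji hj) (by
      intro j hj
      by_cases hji : j = i
      · rw [hji, update_self]
        exact hb
      · rw [update_of_ne hji]
        refine hy j ?_
        rw [Finset.mem_insert]
        exact fun h => h.elim hji hj)
    rw [sqrt_update] at h2
    exact h2

theorem t_Mn : S_Mn := by
  intro h1 n F G H hF hG hH eF eG eH hyp
  have h2 := marg h1 F G H hF hG hH eF eG eH hyp Finset.univ (fun _ => 1) (fun _ => 1)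
    (fun i hi => absurd (Finset.mem_univ i) hi) (fun i hi => absurd (Finset.mem_univ i) hi)
  rw [volume_pi, lintegral_eq_lmarginal_univ (fun _ => (1 : ℝ)),
    lintegral_eq_lmarginal_univ (fun _ => (1 : ℝ)), lintegral_eq_lmarginal_univ
      (fun i : Fin n => Real.sqrt ((fun _ => (1 : ℝ)) i * (fun _ => (1 : ℝ)) i))]
  exact h2

end Pool.Agent.H591.SN8
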