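import Pool.Agent.H918.D.LMd

/-!
# The support inequality along exponential discs (`S_T1` of `Pool.Agent.H918.D.LMd`)
-/

set_option autoImplicit false

open Filter Topology Metric Set

namespace Pool.Agent.H918.SS

namespace T1L

lemma log_le {u : ℝ} (hu : |u| ≤ 1 / 4) : Real.log (1 + u) ≤ u - u ^ 2 / 6 := by
  have h1 : |-u| < 1 := by rw [abs_neg]; linarith
  have h2 := Real.abs_log_sub_add_sum_range_le h1 2
  rw [Finset.sum_range_succ, Finset.sum_range_one] at h2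
  have h3 := (abs_le.1 h2).2
  have h4 : |-u| ^ (2 + 1) / (1 - |-u|) ≤ u ^ 2 / 3 := by
    rw [abs_neg, div_le_iff₀ (by linarith)]
    have h5 : |u| ^ (2 + 1) = |u| * u ^ 2 := by rw [pow_succ, sq_abs]; ring
    rw [h5]
    have h6 : 0 ≤ u ^ 2 := sq_nonneg u
    nlinarith [abs_nonneg u]
  have h7 : (1 : ℝ) - -u = 1 + u := by ring
  rw [h7] at h3
  norm_num at h3
  norm_num at h4
  nlinarith [h3, h4]

/-- `exp |x| / (1 + |x|)` -/
noncomputable def Q (x : ℝ) : ℝ := Real.exp |x| / (1 + |x|)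

lemma Q_eq (x : ℝ) : Q x = Real.exp (|x| - Real.log (1 + |x|)) := by
  have h : 0 < 1 + |x| := by positivity
  rw [Real.exp_sub, Real.exp_log h, Q]

lemma Q_pos (x : ℝ) : 0 < Q x := by rw [Q_eq]; exact Real.exp_pos _

lemma Q_support {x x0 : ℝ} (h : |x - x0| ≤ (1 + |x0|) / 4) :
    Q x0 * Real.exp (x0 * (x - x0) / (1 + |x0|) + (x - x0) ^ 2 / (6 * (1 + |x0|) ^ 2)) ≤ Q x := by
  set l := 1 + |x0| with hl
  have hl1 : 1 ≤ l := by have := abs_nonneg x0; linarith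
  have hl0 : 0 < l := by linarith
  set u := (|x| - |x0|) / l with hu
  have hu4 : |u| ≤ 1 / 4 := by
    rw [hu, abs_div, abs_of_pos hl0, div_le_iff₀ hl0]
    have := abs_abs_sub_abs_le_abs_sub x x0
    linarith
  have hx : |x| = |x0| + u * l := by
    rw [hu]; field_simp; ring
  have hx1 : 1 + |x| = l * (1 + u) := by rw [hx, hl]; ring
  have hu1 : 0 < 1 + u := by
    have := (abs_le.1 hu4).1
    linarith
  have hlog : Real.log (1 + |x|) = Real.log l + Real.log (1 + u) := by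
    rw [hx1, Real.log_mul hl0.ne' hu1.ne']
  have hlu := log_le hu4
  rw [Q_eq, Q_eq, ← Real.exp_add, Real.exp_le_exp, ← hl, hlog]
  have hA : 0 ≤ |x0| * |x| - x0 * x := by
    have := le_abs_self (x0 * x)
    rw [abs_mul] at this
    linarith
  have e1 : u * |x0| + u ^ 2 / 6 - (x0 * (x - x0) / l + (x - x0) ^ 2 / (6 * l ^ 2))
      = (|x0| * |x| - x0 * x) * (1 / l - 1 / (3 * l ^ 2)) := by
    have h1 : |x| ^ 2 = x ^ 2 := sq_abs x
    have h2 : |x0| ^ 2 = x0 ^ 2 := sq_abs x0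
    rw [hu]
    field_simp
    ring_nf
    simp only [h1, h2]
    ring
  have e2 : 0 ≤ 1 / l - 1 / (3 * l ^ 2) := by
    have h3 : 1 / l - 1 / (3 * l ^ 2) = (3 * l - 1) / (3 * l ^ 2) := by field_simp
    rw [h3]
    apply div_nonneg <;> nlinarith
  have e3 := mul_nonneg hA e2
  rw [← e1] at e3
  have e4 : |x| = |x0| + u + u * |x0| := by rw [hx, hl]; ring
  linarith

lemma max_sq {ρ r : ℝ} (hρ : 0 < ρ) (hr : 0 < r) :
    max ρ r ^ 2 = ρ * r * Real.exp |Real.log (ρ / r)| := by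
  rcases le_total r ρ with h | h
  · rw [max_eq_left h, abs_of_nonneg (Real.log_nonneg ((one_le_div hr).2 h)),
      Real.exp_log (div_pos hρ hr)]
    field_simp
  · rw [max_eq_right h, abs_of_nonpos (Real.log_nonpos (div_pos hρ hr).le ((div_le_one hr).2 h)),
      Real.exp_neg, Real.exp_log (div_pos hρ hr)]
    field_simp

lemma pf_eq {a b z : ℂ} (hab : a ≠ b) (hz : z ≠ a) :
    pf a b z = ‖b - a‖ * Q (Real.log (‖z - a‖ / ‖b - a‖)) / (‖z - a‖ ^ 3 * ‖z - b‖ ^ 2) := by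
  have hρ : 0 < ‖z - a‖ := norm_pos_iff.2 (sub_ne_zero.2 hz)
  have hr : 0 < ‖b - a‖ := norm_pos_iff.2 (sub_ne_zero.2 hab.symm)
  have h1 : 0 < 1 + |Real.log (‖z - a‖ / ‖b - a‖)| := by positivity
  unfold pf Q
  rw [max_sq hρ hr]
  by_cases hb : ‖z - b‖ = 0
  · simp [hb]
  · field_simp

lemma pf_nonneg (a b z : ℂ) : 0 ≤ pf a b z := by
  unfold pf
  positivity

end T1L

open T1L

theorem t1 : S_T1 := by
  intro a b z w hab hz hw hE
  by_cases hzb : z = b
  · subst hzb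
    have : pf a z z = 0 := by simp [pf]
    rw [this, zero_mul, zero_mul, zero_mul]
    exact pf_nonneg _ _ _
  have hρ : 0 < ‖z - a‖ := norm_pos_iff.2 (sub_ne_zero.2 hz)
  have hr : 0 < ‖b - a‖ := norm_pos_iff.2 (sub_ne_zero.2 hab.symm)
  have hN : 0 < ‖z - b‖ := norm_pos_iff.2 (sub_ne_zero.2 hzb)
  have hN' : 0 < ‖ed a b z w - b‖ := norm_pos_iff.2 (sub_ne_zero.2 hE)
  set x0 := Real.log (‖z - a‖ / ‖b - a‖) with hx0
  set l := 1 + |x0| with hl
  have hl0 : 0 < l := by have := abs_nonneg x0; linarith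
  -- the norm of `E - a`
  have hEa : ed a b z w - a = (z - a) * Complex.exp (((1 / 8192 * l : ℝ) : ℂ) * w) := by
    unfold ed
    rw [← hx0, ← hl]
    ring
  have hEn : ‖ed a b z w - a‖ = ‖z - a‖ * Real.exp (1 / 8192 * l * w.re) := by
    rw [hEa, norm_mul, Complex.norm_exp, Complex.re_ofReal_mul]
  have hEne : ed a b z w ≠ a := by
    intro h
    rw [h, sub_self, norm_zero] at hEn
    have := mul_pos hρ (Real.exp_pos (1 / 8192 * l * w.re))
    linarith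
  have hx : Real.log (‖ed a b z w - a‖ / ‖b - a‖) = x0 + 1 / 8192 * l * w.re := by
    rw [hEn, mul_div_right_comm, Real.log_mul (div_pos hρ hr).ne' (Real.exp_pos _).ne',
      Real.log_exp]
  have hwre : |w.re| ≤ 1 := (Complex.abs_re_le_norm w).trans hw
  have hsup := Q_support (x := x0 + 1 / 8192 * l * w.re) (x0 := x0) (by
    rw [add_sub_cancel_left, abs_mul, abs_of_pos (by positivity : 0 < 1 / 8192 * l), ← hl]
    nlinarith [abs_nonneg w.re])
  rw [add_sub_cancel_left, ← hl] at hsup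
  have hexp : x0 * (1 / 8192 * l * w.re) / l + (1 / 8192 * l * w.re) ^ 2 / (6 * l ^ 2)
      = 1 / 8192 * x0 * w.re + (1 / 8192) ^ 2 * w.re ^ 2 / 6 := by
    field_simp
  rw [hexp] at hsup
  -- the exponent
  have hem : (em a b z w).re + (1 / 8192) ^ 2 / 12 * ‖w‖ ^ 2
      = 1 / 8192 * x0 * w.re + (1 / 8192) ^ 2 * w.re ^ 2 / 6 - 3 * (1 / 8192 * l * w.re) := by
    unfold em
    rw [← hx0, ← hl, Complex.add_re, Complex.re_ofReal_mul, Complex.re_ofReal_mul,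
      ← Complex.normSq_eq_norm_sq, Complex.normSq_apply]
    have : (w ^ 2).re = w.re * w.re - w.im * w.im := by rw [pow_two, Complex.mul_re]
    rw [this]
    ring
  rw [pf_eq hab hz, pf_eq hab hEne, hx, ← hx0, Complex.norm_exp, hEn, mul_pow, ← Real.exp_nat_mul]
  have hsplit : ‖b - a‖ * Q x0 / (‖z - a‖ ^ 3 * ‖z - b‖ ^ 2) * Real.exp (em a b z w).re *
      (‖z - b‖ / ‖ed a b z w - b‖) ^ 2 * Real.exp ((1 / 8192) ^ 2 / 12 * ‖w‖ ^ 2)
      = ‖b - a‖ / (‖z - a‖ ^ 3 * ‖ed a b z w - b‖ ^ 2) * (Q x0 * Real.exp (1 / 8192 * x0 * w.re +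
          (1 / 8192) ^ 2 * w.re ^ 2 / 6)) * Real.exp (-(3 * (1 / 8192 * l * w.re))) := by
    have h1 : Real.exp (em a b z w).re * Real.exp ((1 / 8192) ^ 2 / 12 * ‖w‖ ^ 2)
        = Real.exp (1 / 8192 * x0 * w.re + (1 / 8192) ^ 2 * w.re ^ 2 / 6) *
          Real.exp (-(3 * (1 / 8192 * l * w.re))) := by
      rw [← Real.exp_add, ← Real.exp_add, hem]
      ring_nf
    calc _ = ‖b - a‖ * Q x0 / (‖z - a‖ ^ 3 * ‖z - b‖ ^ 2) *
        (‖z - b‖ / ‖ed a b z w - b‖) ^ 2 *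
        (Real.exp (em a b z w).re * Real.exp ((1 / 8192) ^ 2 / 12 * ‖w‖ ^ 2)) := by ring
      _ = _ := by
        rw [h1]
        field_simp
  rw [hsplit]
  have hfin : ‖b - a‖ * Q (x0 + 1 / 8192 * l * w.re) /
      (‖z - a‖ ^ 3 * Real.exp ((3 : ℕ) * (1 / 8192 * l * w.re)) * ‖ed a b z w - b‖ ^ 2)
      = ‖b - a‖ / (‖z - a‖ ^ 3 * ‖ed a b z w - b‖ ^ 2) * Q (x0 + 1 / 8192 * l * w.re) *
        Real.exp (-(3 * (1 / 8192 * l * w.re))) := by
    rw [Real.exp_neg]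
    push_cast
    field_simp
  rw [hfin]
  gcongr

end Pool.Agent.H918.SS
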